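import Pool.Agent.N147.BN.Grow

/-!
# Dropping the dimension of a linear series by one and its degree by two
-/

open scoped WithZero
open WithZero Finset

set_option autoImplicit false
set_option linter.unusedSectionVars false

namespace Pool.Agent.N147.BN

open Pool.Agent.Helper395.CS hiding genus
open Pool.Agent.Helper395.BC
open Pool.Agent.W525.BA

variable {K : Type} [Field K] [Algebra ℂ K]

/-- the sections vanishing at a point -/
theorem mem_H0_lsub (L : LineBundle K) (v : Point K) (s : K) :
    s ∈ H0 (lsub L v) ↔ s ∈ H0 L ∧ v.val s < v.val (L.frame v : K) := by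
  constructor
  · intro h
    have h1 := h v
    rw [mem_lsub_self] at h1
    refine ⟨fun w => ?_, h1⟩
    rcases eq_or_ne w v with rfl | hw
    · exact h1.le
    · have := h w
      rwa [mem_lsub_ne L hw] at this
  · rintro ⟨h1, h2⟩ w
    rcases eq_or_ne w v with rfl | hw
    · rwa [mem_lsub_self]
    · rw [mem_lsub_ne L hw]
      exact h1 w

/-- the zeros of a section form a finite set -/
theorem finite_zeros (hK : IsCurve K) (L : LineBundle K) {s : K} (hs : s ≠ 0) :
    {v : Point K | v.val s < v.val (L.frame v : K)}.Finite := by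
  refine (L.finite.union (lprin hK (Units.mk0 s hs)).finite).subset fun v hv => ?_
  by_contra hcon
  simp only [Set.mem_union, Set.mem_ofPred_eq, not_or, not_not] at hcon
  have h1 : v.val s = 1 := hcon.2
  have h2 : v.val s < v.val (L.frame v : K) := hv
  rw [hcon.1, h1] at h2
  exact lt_irrefl _ h2

/-- a section which generates a base point free line bundle at the points of a finite set -/
theorem exists_gen_finite (L : LineBundle K)
    (hb : ∀ v, Module.finrank ℂ (H0 (lsub L v)) < Module.finrank ℂ (H0 L))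
    {Z : Set (Point K)} (hZ : Z.Finite) :
    ∃ s ∈ H0 L, ∀ v ∈ Z, v.val s = v.val (L.frame v : K) := by
  have := hZ.to_subtype
  obtain ⟨x, hx⟩ := Submodule.exists_forall_notMem_of_forall_ne_top
    (fun v : Z => (H0 (lsub L v.1)).comap (H0 L).subtype) (fun v htop => by
      obtain ⟨s, hs, hv⟩ := exists_generator L v.1 (hb v.1)
      have h1 : (⟨s, hs⟩ : H0 L) ∈ (H0 (lsub L v.1)).comap (H0 L).subtype := by
        rw [htop]; trivial
      have h2 := ((mem_H0_lsub L v.1 s).1 h1).2
      rw [hv] at h2
      exact lt_irrefl _ h2)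
  refine ⟨x.1, x.2, fun v hv => ?_⟩
  by_contra hcon
  apply hx ⟨v, hv⟩
  change (x : K) ∈ H0 (lsub L v)
  rw [mem_H0_lsub]
  exact ⟨x.2, lt_of_le_of_ne (x.2 v) hcon⟩

/-- two elements of `ℤᵐ⁰` -/
theorem eq_of_lt_one {x : ℤᵐ⁰} (h1 : x < 1) (h2 : ¬ x ≤ exp (-2)) : x = exp (-1) := by
  have hx0 : x ≠ 0 := by
    rintro rfl
    exact h2 zero_le
  obtain ⟨n, rfl⟩ : ∃ n : ℤ, x = exp n := ⟨log x, (exp_log hx0).symm⟩
  rw [← exp_zero, exp_lt_exp] at h1
  rw [exp_le_exp] at h2
  congr 1
  omega

/-- the existence of a normalised section with simple zeros -/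
theorem exists_Nm (hK : IsCurve K) (L : LineBundle K)
    (hb : ∀ v, Module.finrank ℂ (H0 (lsub L v)) < Module.finrank ℂ (H0 L))
    (hb' : ∀ v, 1 ≤ Module.finrank ℂ (H0 (lsub L v))) :
    ∃ (s : K) (hs : s ≠ 0) (D : Finset (Point K)) (u : K), s ∈ H0 L ∧ u ≠ 0 ∧
      Nm (lmul L (linv (lprin hK (Units.mk0 s hs)))) D u := by
  classical
  obtain ⟨p⟩ := point_nonempty hK
  obtain ⟨s₁, hs₁, hs₁0⟩ : ∃ s ∈ H0 (lsub L p), s ≠ 0 := by
    apply Submodule.exists_mem_ne_zero_of_ne_bot
    intro h
    have := hb' p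
    rw [h, finrank_bot] at this
    omega
  rw [mem_H0_lsub] at hs₁
  obtain ⟨hs₁L, hs₁p⟩ := hs₁
  have hZ := finite_zeros hK L hs₁0
  obtain ⟨s₀, hs₀, hgen⟩ := exists_gen_finite L hb hZ
  have hpos : ∀ v : Point K, 0 < v.val s₁ := fun v => zero_lt_iff.2 (v.val_ne_zero hs₁0)
  set t := s₀ / s₁ with ht
  have htp : 1 < p.val t := by
    rw [ht, map_div₀, hgen p hs₁p, one_lt_div₀ (hpos p)]
    exact hs₁p
  have htr : Transcendental ℂ t := by
    intro h
    obtain ⟨c, hc⟩ := exists_const (not_not.2 h)
    rw [hc] at htp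
    exact not_lt.2 (p.const_le c) htp
  have hram := finite_ramified hK htr
  set R := {v : Point K | v.val t ≤ 1 ∧ ∃ c : ℂ, v.val (t - algebraMap ℂ K c) ≤ exp (-2)} with hR
  -- the residues at the ramified points
  have hres : {c : ℂ | ∃ v ∈ R, v.val (t - algebraMap ℂ K c) < 1}.Finite := by
    have h1 : {c : ℂ | ∃ v ∈ R, v.val (t - algebraMap ℂ K c) < 1} ⊆
        (fun v : Point K => if h : ∃ c : ℂ, v.val (t - algebraMap ℂ K c) < 1 then h.choose else 0)
          '' R := by
      rintro c ⟨v, hv, hc⟩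
      refine ⟨v, hv, ?_⟩
      have h : ∃ c : ℂ, v.val (t - algebraMap ℂ K c) < 1 := ⟨c, hc⟩
      simp only [dif_pos h]
      exact res_unique v h.choose_spec hc
    exact (hram.image _).subset h1
  obtain ⟨c, hc⟩ := hres.exists_notMem
  have hc' : ∀ v : Point K, v.val t ≤ 1 → v.val (t - algebraMap ℂ K c) < 1 →
      v.val (t - algebraMap ℂ K c) = exp (-1) := by
    intro v hv1 hv2
    apply eq_of_lt_one hv2
    intro h
    exact hc ⟨v, ⟨hv1, c, h⟩, hv2⟩
  set u := t - algebraMap ℂ K c with hu
  have hu0 : u ≠ 0 := by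
    intro h
    apply htr
    rw [sub_eq_zero.1 h]
    exact isAlgebraic_algebraMap c
  set L' := lmul L (linv (lprin hK (Units.mk0 s₁ hs₁0))) with hL'
  have hfr : ∀ v : Point K, v.val (L'.frame v : K) = v.val (L.frame v : K) * (v.val s₁)⁻¹ := by
    intro v
    rw [hL', val_lmul, val_linv]
    rfl
  have hone : ∀ v : Point K, 1 ≤ v.val (L'.frame v : K) := by
    intro v
    rw [hfr, ← div_eq_mul_inv, one_le_div₀ (hpos v)]
    exact hs₁L v
  -- values at the zeros of `s₁`
  have hval1 : ∀ v : Point K, v.val s₁ < v.val (L.frame v : K) →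
      v.val u = v.val (L'.frame v : K) := by
    intro v hv
    have h1 : v.val t = v.val (L'.frame v : K) := by
      rw [ht, map_div₀, hgen v hv, hfr, div_eq_mul_inv]
    have h2 : 1 < v.val t := by
      rw [h1, hfr, ← div_eq_mul_inv, one_lt_div₀ (hpos v)]
      exact hv
    rw [← h1, hu]
    apply Valuation.map_sub_eq_of_lt_left
    exact (v.const_le c).trans_lt h2
  have hval2 : ∀ v : Point K, ¬ v.val s₁ < v.val (L.frame v : K) →
      v.val (L'.frame v : K) = 1 ∧ v.val t ≤ 1 := by
    intro v hv
    have h1 : v.val s₁ = v.val (L.frame v : K) := le_antisymm (hs₁L v) (not_lt.1 hv)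
    constructor
    · rw [hfr, ← h1, mul_inv_cancel₀ (hpos v).ne']
    · rw [ht, map_div₀, div_le_one₀ (hpos v), h1]
      exact hs₀ v
  have hDfin : {v : Point K | v.val u < v.val (L'.frame v : K)}.Finite := finite_zeros hK L' hu0
  refine ⟨s₁, hs₁0, hDfin.toFinset, u, hs₁L, hu0, ?_⟩
  refine ⟨?_, ?_, ?_, ?_⟩
  · rw [mem_H0]
    intro v
    rw [map_one]
    exact hone v
  · intro v hv
    rw [Set.Finite.mem_toFinset, Set.mem_ofPred_eq, not_lt] at hv
    by_cases h : v.val s₁ < v.val (L.frame v : K)
    · exact hval1 v h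
    · refine le_antisymm ?_ hv
      rw [(hval2 v h).1]
      exact Valuation.map_sub_le _ (hval2 v h).2 (v.const_le c)
  · intro v hv
    rw [Set.Finite.mem_toFinset, Set.mem_ofPred_eq] at hv
    by_cases h : v.val s₁ < v.val (L.frame v : K)
    · rw [hval1 v h] at hv
      exact absurd hv (lt_irrefl _)
    · rw [(hval2 v h).1] at hv
      exact hc' v (hval2 v h).2 hv
  · intro v hv
    rw [Set.Finite.mem_toFinset, Set.mem_ofPred_eq] at hv
    by_cases h : v.val s₁ < v.val (L.frame v : K)
    · rw [hval1 v h] at hv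
      exact absurd hv (lt_irrefl _)
    · exact (hval2 v h).1

/-- the degree of a normalised line bundle -/
theorem Nm.degree_eq (hK : IsCurve K) {L : LineBundle K} {D : Finset (Point K)} {u : K}
    (h : Nm L D u) (hu : u ≠ 0) : L.degree = D.card := by
  classical
  have h1 : L.degree = (lmul L (linv (lprin hK (Units.mk0 u hu)))).degree := by
    rw [lmul_degree, linv_degree, lprin_degree]
    ring
  rw [h1, LineBundle.degree, finsum_eq_sum_of_support_subset (s := D)]
  · have h2 : ∀ v ∈ D, -v.ord ((lmul L (linv (lprin hK (Units.mk0 u hu)))).frame v : K) = 1 := by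
      intro v hv
      rw [Point.ord, val_lmul, val_linv, h.frame v hv, one_mul]
      change -(-log (v.val u)⁻¹) = 1
      rw [h.on v hv, ← exp_neg, log_exp]
      norm_num
    rw [sum_congr rfl h2]
    simp
  · intro v hv
    rw [Function.mem_support] at hv
    by_contra hvD
    apply hv
    rw [Point.ord, val_lmul, val_linv, ← h.off v hvD]
    change -(-log (v.val u * (v.val u)⁻¹)) = 0
    rw [mul_inv_cancel₀ (v.val_ne_zero hu), log_one]
    norm_num

/-- **The single step.** If the genus is large compared with the degree, a linear series of dimension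
`r` and degree `d` gives one of dimension `r - 1` and degree `d - 2`. -/
theorem drop (hK : IsCurve K) (hg : genus K ≠ 0) {L : LineBundle K} {r d : ℕ} (hr : 2 ≤ r)
    (hd : L.degree = d) (hL : r + 1 ≤ Module.finrank ℂ (H0 L))
    (hgd : (d - r + 1).choose 2 < genus K) :
    ∃ M : LineBundle K, M.degree = L.degree - 2 ∧ r ≤ Module.finrank ℂ (H0 M) := by
  classical
  by_contra hcon
  push Not at hcon
  have h1 : ∀ p q : Point K, Module.finrank ℂ (H0 (lsub (lsub L p) q)) < r := by
    intro p q
    apply hcon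
    rw [lsub_degree, lsub_degree]
    ring
  have hb1 : ∀ p, Module.finrank ℂ (H0 (lsub L p)) = r := by
    intro p
    have h2 := h0_lsub hK hg L p
    have h3 := h0_lsub hK hg (lsub L p) p
    have h4 := h1 p p
    omega
  have hb : ∀ v, Module.finrank ℂ (H0 (lsub L v)) < Module.finrank ℂ (H0 L) := by
    intro v
    rw [hb1]
    omega
  obtain ⟨s, hs, D, u, hsL, hu, hNm⟩ := exists_Nm hK L hb (fun v => by rw [hb1]; omega)
  set L' := lmul L (linv (lprin hK (Units.mk0 s hs))) with hL'
  have hpos : ∀ v : Point K, 0 < v.val s := fun v => zero_lt_iff.2 (v.val_ne_zero hs)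
  have hfr : ∀ v : Point K, v.val (L'.frame v : K) = v.val (L.frame v : K) * (v.val s)⁻¹ := by
    intro v
    rw [hL', val_lmul, val_linv]
    rfl
  have hdeg : L'.degree = L.degree := by
    rw [hL', lmul_degree, linv_degree, lprin_degree]
    ring
  have hcard := hNm.degree_eq hK hu
  have hcard' : D.card = d := by
    rw [hdeg, hd] at hcard
    exact_mod_cast hcard.symm
  have hfin : Module.finrank ℂ (H0 L') = Module.finrank ℂ (H0 L) :=
    h0_scale s hs fun v => by
      rw [hfr, mul_assoc, inv_mul_cancel₀ (hpos v).ne', mul_one]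
  have hdpos : 0 < D.card := by
    by_contra h0
    have h0' : L.degree = 0 := by rw [hd]; have : d = 0 := by omega
                                  rw [this]; rfl
    obtain ⟨p⟩ := point_nonempty hK
    have h2 : H0 (lsub L p) = ⊥ := H0_eq_bot hK (by rw [lsub_degree, h0']; norm_num)
    have h3 := hb1 p
    rw [h2, finrank_bot] at h3
    omega
  have hsep : Sep L' D := by
    intro v hv w hw hvw
    obtain ⟨σ, hσ, hσw⟩ := exists_generator (lsub L v) w (by rw [hb1]; exact h1 v w)
    have hσ' := (mem_H0_lsub L v σ).1 hσ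
    -- the frame of `L(-v)` at `w`
    have hfw : w.val ((lsub L v).frame w : K) = w.val (L.frame w : K) := by
      have hne : w ≠ v := fun h => hvw h.symm
      apply le_antisymm
      · have : ((lsub L v).frame w : K) ∈ (lsub L v).stalk w := le_refl (w.val ((lsub L v).frame w : K))
        rw [mem_lsub_ne L hne] at this
        exact this
      · have : (L.frame w : K) ∈ (lsub L v).stalk w := by
          rw [mem_lsub_ne L hne]
          exact le_refl (w.val (L.frame w : K))
        exact this
    have hmul : ∀ x : Point K, x.val (σ * s⁻¹) = x.val σ * (x.val s)⁻¹ := by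
      intro x
      rw [map_mul, map_inv₀]
    refine ⟨σ * s⁻¹, ?_, ?_, ?_⟩
    · rw [mem_H0]
      intro x
      rw [hmul, hfr]
      exact mul_le_mul_left (hσ'.1 x) _
    · rw [hmul, ← hNm.frame v hv, hfr]
      exact mul_lt_mul_of_pos_right hσ'.2 (inv_pos.2 (hpos v))
    · rw [hmul, hσw, hfw, ← hfr, hNm.frame w hw]
  have hle := hNm.genus_le hK hg hu hsep (by rw [hcard]) hdpos (r := r) (by rw [hfin]; exact hL)
  rw [hcard'] at hle
  omega

end Pool.Agent.N147.BN
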