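import Pool.Agent.N147.BN.HypGenus

/-!
# Containments of Brill-Noether loci for curves of large genus
-/

open scoped WithZero Polynomial IntermediateField
open WithZero

set_option autoImplicit false
set_option linter.unusedSectionVars false

namespace Pool.Agent.N147.BN

open Pool.Agent.Helper395.CS hiding genus map_mul map_inv
open Pool.Agent.Helper395.BC
open Pool.Agent.W525.BA
open Pool.Agent.Y803.FD (Rev fs fs' revs Kf xf yf hyp_all Pf)
open Pool.Agent.W518.PC (lpow)

variable {K : Type} [Field K] [Algebra ℂ K]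

/-- adding points -/
theorem add_points (hK : IsCurve K) (hg : genus K ≠ 0) (L : LineBundle K) (k : ℕ) :
    ∃ M : LineBundle K, M.degree = L.degree + k ∧
      Module.finrank ℂ (H0 L) ≤ Module.finrank ℂ (H0 M) := by
  obtain ⟨p⟩ := point_nonempty hK
  induction k with
  | zero => exact ⟨L, by simp, le_rfl⟩
  | succ k ih =>
    obtain ⟨M, hM, hM'⟩ := ih
    refine ⟨lmul M (lpt p), ?_, hM'.trans ?_⟩
    · rw [lmul_degree, lpt_degree, hM]
      push_cast
      ring
    · have := H0_finite hK hg (lmul M (lpt p))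
      exact Submodule.finrank_mono (H0_mono (le_lmul_lpt M p))

/-- iterating the single step -/
theorem descend (hK : IsCurve K) (hg : genus K ≠ 0) {L : LineBundle K} {r d : ℕ}
    (hd : L.degree = d) (hL : r + 1 ≤ Module.finrank ℂ (H0 L))
    (hgd : (d - r + 1).choose 2 < genus K) (k : ℕ) (hk : k + 1 ≤ r) :
    ∃ M : LineBundle K, M.degree = L.degree - 2 * k ∧ r - k + 1 ≤ Module.finrank ℂ (H0 M) := by
  induction k with
  | zero => exact ⟨L, by simp, hL⟩
  | succ k ih =>
    obtain ⟨M, hM, hM'⟩ := ih (by omega)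
    have hpos : 0 ≤ M.degree := by
      by_contra h
      rw [H0_eq_bot hK (not_le.1 h), finrank_bot] at hM'
      omega
    obtain ⟨d', hd'⟩ : ∃ d' : ℕ, M.degree = d' := ⟨M.degree.toNat, by omega⟩
    obtain ⟨N, hN, hN'⟩ := drop hK hg (r := r - k) (d := d') (by omega) hd' hM' (by
      refine lt_of_le_of_lt (Nat.choose_le_choose 2 ?_) hgd
      omega)
    refine ⟨N, ?_, ?_⟩
    · rw [hN, hM]
      push_cast
      ring
    · omega

/-- the containment -/
theorem contained (hK : IsCurve K) (hg : genus K ≠ 0) {L : LineBundle K} {r d : ℕ} (hr : 2 ≤ r)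
    (hd : L.degree = d) (hL : r + 1 ≤ Module.finrank ℂ (H0 L))
    (hgd : (d - r + 1).choose 2 < genus K) :
    ∃ M : LineBundle K, M.degree = d - 2 * r + 4 ∧ 3 ≤ Module.finrank ℂ (H0 M) := by
  obtain ⟨M, hM, hM'⟩ := descend hK hg hd hL hgd (r - 2) (by omega)
  refine ⟨M, ?_, by omega⟩
  rw [hM, hd]
  have : ((r - 2 : ℕ) : ℤ) = r - 2 := by omega
  rw [this]
  ring

/-- hyperelliptic curves -/
theorem exists_hyp (g : ℕ) (hg : 7 ≤ g) : ∃ (K : Type) (_ : Field K) (_ : Algebra ℂ K),
    IsCurve K ∧ genus K = g ∧ ∀ r : ℕ, ∃ L : LineBundle K, L.degree = 2 * r ∧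
      r + 1 ≤ Module.finrank ℂ (H0 L) := by
  obtain ⟨b, rfl⟩ : ∃ b, g = b + 7 := ⟨g - 7, by omega⟩
  obtain ⟨s, hs⟩ : ∃ s : Finset ℂ, s.card = 2 * b + 16 := Infinite.exists_subset_card_eq ℂ _
  have R : Rev (fs s) (fs' s) b := revs s hs
  have hirr : Fact (Irreducible (Pf (fs s))) :=
    ⟨Pool.Agent.Y803.FD.Pf_irreducible (Pool.Agent.Y803.FD.fs_sep s) (by rw [R.deg]; omega)⟩
  have H := hyp_all (Pool.Agent.Y803.FD.fs_sep s) (Pool.Agent.Y803.FD.xf_transcendental (fs s))
    (Pool.Agent.Y803.FD.yf_sq (fs s)) (Pool.Agent.Y803.FD.adjoinf (fs s))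
  refine ⟨Kf (fs s), inferInstance, inferInstance, H.curve, hyp_genus H R, fun r => ?_⟩
  have hg0 : genus (Kf (fs s)) ≠ 0 := by
    rw [hyp_genus H R]
    omega
  refine ⟨lpow (lineH H.curve H.x_ne 1) r, ?_, ?_⟩
  · rw [Pool.Agent.W45.PCG.lpow_degree, Pool.Agent.Y803.FD.degree_lineH H R]
    push_cast
    ring
  · have hfin := H0_finite H.curve hg0 (lpow (lineH H.curve H.x_ne 1) r)
    have hle : LinearMap.range (polyMap (xf (fs s)) (yf (fs s)) (r + 1) 0) ≤
        H0 (lpow (lineH H.curve H.x_ne 1) r) := by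
      rintro _ ⟨⟨⟨p, hp⟩, ⟨q, hq⟩⟩, rfl⟩
      rw [mem_H0_lineH]
      intro v
      rw [Polynomial.mem_degreeLT] at hp hq
      have hq0 : q = 0 := by
        by_contra h
        rw [Polynomial.degree_eq_natDegree h] at hq
        have : q.natDegree < 0 := by exact_mod_cast hq
        omega
      subst hq0
      change v.val (Polynomial.aeval _ p + Polynomial.aeval _ 0 * _) ≤ 1 ∨
        1 < v.val _ ∧ v.val (Polynomial.aeval _ p + Polynomial.aeval _ 0 * _) ≤ _
      rw [map_zero, zero_mul, add_zero]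
      by_cases hv : v.val (xf (fs s)) ≤ 1
      · exact Or.inl (aeval_le hv p)
      · have hv' := not_le.1 hv
        refine Or.inr ⟨hv', ?_⟩
        rcases eq_or_ne p 0 with rfl | hp0
        · rw [map_zero, map_zero]
          exact zero_le
        · rw [val_aeval_inf hv' p hp0, pow_le_pow_iff_right₀ hv']
          rw [Polynomial.degree_eq_natDegree hp0] at hp
          have : p.natDegree < r + 1 := by exact_mod_cast hp
          omega
    have h1 := Submodule.finrank_mono hle
    have f1 := finite_degreeLT (r + 1)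
    have f2 := finite_degreeLT 0
    rw [LinearMap.finrank_range_of_inj (polyMap_injective H _ _), Module.finrank_prod,
      finrank_degreeLT, finrank_degreeLT] at h1
    exact h1

end Pool.Agent.N147.BN
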