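import Pool.Agent.N147.BN.Unram

/-!
# Growth of the Hilbert function of a curve
-/

open scoped WithZero
open WithZero Finset

set_option autoImplicit false
set_option linter.unusedSectionVars false

namespace Pool.Agent.N147.BN

open Pool.Agent.Helper395.CS hiding genus
open Pool.Agent.Helper395.BC
open Pool.Agent.W525.BA

/-! ### Linear algebra -/

/-- spaces of functions on a finite set -/
theorem grow {ι : Type*} [Fintype ι] [DecidableEq ι] (W W' U : Submodule ℂ (ι → ℂ))
    (h1 : (1 : ι → ℂ) ∈ W) (hle : W ≤ W') (hmul : ∀ x ∈ W, ∀ y ∈ U, x * y ∈ W')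
    (hsep : ∀ i j : ι, i ≠ j → ∃ y ∈ U, y i = 0 ∧ y j ≠ 0) :
    W = ⊤ ∨ Module.finrank ℂ W + 1 ≤ Module.finrank ℂ W' := by
  rcases eq_or_lt_of_le hle with heq | hlt
  · left
    have hind : ∀ j : ι, ∀ T : Finset ι, j ∉ T → ∃ y ∈ W, y j ≠ 0 ∧ ∀ i ∈ T, y i = 0 := by
      intro j T
      induction T using Finset.induction_on with
      | empty => exact fun _ => ⟨1, h1, one_ne_zero, by simp⟩
      | insert i T hi ih =>
        intro hj
        obtain ⟨y, hy, hyj, hyT⟩ := ih fun h => hj (mem_insert_of_mem h)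
        obtain ⟨z, hz, hzi, hzj⟩ := hsep i j (by
          rintro rfl
          exact hj (mem_insert_self _ _))
        refine ⟨y * z, by rw [heq]; exact hmul y hy z hz, mul_ne_zero hyj hzj, fun k hk => ?_⟩
        rcases mem_insert.1 hk with rfl | hk
        · rw [Pi.mul_apply, hzi, mul_zero]
        · rw [Pi.mul_apply, hyT k hk, zero_mul]
    rw [eq_top_iff]
    intro x _
    rw [← Finset.univ_sum_single x]
    refine Submodule.sum_mem _ fun j _ => ?_
    obtain ⟨y, hy, hyj, hyT⟩ := hind j (univ.erase j) (notMem_erase _ _)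
    have h2 : Pi.single j (x j) = (x j / y j) • y := by
      funext i
      rcases eq_or_ne i j with rfl | hij
      · rw [Pi.single_eq_same, Pi.smul_apply, smul_eq_mul, div_mul_cancel₀ _ hyj]
      · rw [Pi.single_eq_of_ne hij, Pi.smul_apply, hyT i (mem_erase.2 ⟨hij, mem_univ _⟩),
          smul_zero]
    rw [h2]
    exact W.smul_mem _ hy
  · right
    exact Submodule.finrank_lt_finrank_of_lt hlt

/-- the sum of the defects -/
theorem sum_defect (x : ℕ → ℕ) (hx : ∀ n, x (n + 1) ≤ x n) (hx' : ∀ n, x n = 0 ∨ x (n + 1) + 1 ≤ x n) :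
    ∀ (N m : ℕ), x 0 ≤ m → ∑ n ∈ range N, x n ≤ (m + 1).choose 2 := by
  intro N
  induction N generalizing x with
  | zero => intro m _; simp
  | succ N ih =>
    intro m hm
    rw [sum_range_succ']
    rcases hx' 0 with h0 | h0
    · have := ih (fun n => x (n + 1)) (fun n => hx _) (fun n => hx' _) 0 (by have := hx 0; omega)
      have h2 : (0 + 1).choose 2 = 0 := rfl
      omega
    · obtain ⟨m, rfl⟩ : ∃ k, m = k + 1 := ⟨m - 1, by omega⟩
      have := ih (fun n => x (n + 1)) (fun n => hx _) (fun n => hx' _) m (by omega)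
      have h2 : (m + 1 + 1).choose 2 = (m + 1).choose 2 + (m + 1) := by
        rw [Nat.choose_succ_succ' (m + 1) 1, Nat.choose_one_right]
        ring
      omega

/-! ### Powers of a line bundle -/

variable {K : Type} [Field K] [Algebra ℂ K]

/-- powers of a line bundle -/
noncomputable def pw (L : LineBundle K) : ℕ → LineBundle K
  | 0 => one K
  | n + 1 => lmul (pw L n) L

theorem pw_degree (L : LineBundle K) (n : ℕ) : (pw L n).degree = n * L.degree := by
  induction n with
  | zero => rw [pw, one_degree]; simp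
  | succ n ih => rw [pw, lmul_degree, ih]; push_cast; ring

theorem val_lmul (L M : LineBundle K) (v : Point K) :
    v.val ((lmul L M).frame v : K) = v.val (L.frame v : K) * v.val (M.frame v : K) := by
  change v.val ((L.frame v * M.frame v : Kˣ) : K) = _
  rw [Units.val_mul, map_mul]

theorem val_linv (L : LineBundle K) (v : Point K) :
    v.val ((linv L).frame v : K) = (v.val (L.frame v : K))⁻¹ := by
  change v.val (((L.frame v)⁻¹ : Kˣ) : K) = _
  rw [Units.val_inv_eq_inv_val, map_inv₀]

theorem val_pw (L : LineBundle K) (n : ℕ) (v : Point K) :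
    v.val ((pw L n).frame v : K) = v.val (L.frame v : K) ^ n := by
  induction n with
  | zero => 
    rw [pw, pow_zero]
    change v.val ((1 : Kˣ) : K) = 1
    rw [Units.val_one, map_one]
  | succ n ih => rw [pw, val_lmul, ih, pow_succ]

/-- the normalised situation: `u` is a section of `L` with simple zeros at the points of `D`, and `1` is
a section which generates `L` at these points -/
structure Nm (L : LineBundle K) (D : Finset (Point K)) (u : K) : Prop where
  one_mem : (1 : K) ∈ H0 L
  off : ∀ v ∉ D, v.val u = v.val (L.frame v : K)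
  on : ∀ v ∈ D, v.val u = exp (-1)
  frame : ∀ v ∈ D, v.val (L.frame v : K) = 1

variable {L : LineBundle K} {D : Finset (Point K)} {u : K}

theorem Nm.one_le (h : Nm L D u) (v : Point K) : 1 ≤ v.val (L.frame v : K) := by
  have := (mem_H0 L 1).1 h.one_mem v
  rwa [map_one] at this

theorem Nm.le_frame (h : Nm L D u) (v : Point K) : v.val u ≤ v.val (L.frame v : K) := by
  by_cases hv : v ∈ D
  · rw [h.on v hv, h.frame v hv, ← exp_zero, exp_le_exp]
    norm_num
  · exact (h.off v hv).le

theorem Nm.mem (h : Nm L D u) : u ∈ H0 L := (mem_H0 L u).2 h.le_frame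

theorem Nm.val_le (h : Nm L D u) (n : ℕ) (f : H0 (pw L n)) {v : Point K} (hv : v ∈ D) :
    v.val (f : K) ≤ 1 := by
  have := (mem_H0 _ _).1 f.2 v
  rwa [val_pw, h.frame v hv, one_pow] at this

/-- evaluation at the points of `D` -/
noncomputable def Nm.ev (h : Nm L D u) (hK : IsCurve K) (n : ℕ) : H0 (pw L n) →ₗ[ℂ] (D → ℂ) where
  toFun f v := resHom hK v.1 ⟨f.1, h.val_le n f v.2⟩
  map_add' f g := by
    funext v
    rw [Pi.add_apply, ← map_add]
    rfl
  map_smul' c f := by
    funext v
    have h1 : (⟨(c • f).1, h.val_le n (c • f) v.2⟩ : v.1.val.integer) =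
        ⟨algebraMap ℂ K c, v.1.const_le c⟩ * ⟨f.1, h.val_le n f v.2⟩ :=
      Subtype.ext (Algebra.smul_def _ _)
    rw [Pi.smul_apply, RingHom.id_apply, smul_eq_mul, h1, map_mul, resHom_const hK v.1 c]

theorem Nm.ev_apply (h : Nm L D u) (hK : IsCurve K) (n : ℕ) (f : H0 (pw L n)) (v : D) :
    h.ev hK n f v = resHom hK v.1 ⟨f.1, h.val_le n f v.2⟩ := rfl

theorem Nm.ev_eq_zero (h : Nm L D u) (hK : IsCurve K) (n : ℕ) (f : H0 (pw L n)) :
    h.ev hK n f = 0 ↔ ∀ v ∈ D, v.val (f : K) < 1 := by
  constructor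
  · intro h1 v hv
    have := congrFun h1 ⟨v, hv⟩
    rw [Nm.ev_apply, Pi.zero_apply, resHom_eq_zero_iff] at this
    exact this
  · intro h1
    funext v
    rw [Nm.ev_apply, Pi.zero_apply, resHom_eq_zero_iff]
    exact h1 v.1 v.2

/-- the kernel of the evaluation map -/
theorem Nm.finrank_ker (h : Nm L D u) (hK : IsCurve K) (hu : u ≠ 0) (n : ℕ) :
    Module.finrank ℂ (LinearMap.ker (h.ev hK (n + 1))) = Module.finrank ℂ (H0 (pw L n)) := by
  have hpos : ∀ v : Point K, 0 < v.val u := fun v => zero_lt_iff.2 (v.val_ne_zero hu)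
  have hfr : ∀ v : Point K, v.val ((pw L n).frame v : K) * v.val u ≤
      v.val ((pw L (n + 1)).frame v : K) := by
    intro v
    rw [val_pw, val_pw, pow_succ]
    exact mul_le_mul_right (h.le_frame v) _
  let e : H0 (pw L n) ≃ₗ[ℂ] LinearMap.ker (h.ev hK (n + 1)) :=
    { toFun := fun s => ⟨⟨(s : K) * u, by
        rw [mem_H0]
        intro v
        rw [map_mul]
        exact (mul_le_mul_left (s.2 v) _).trans (hfr v)⟩, by
        rw [LinearMap.mem_ker, Nm.ev_eq_zero]
        intro v hv
        change v.val ((s : K) * u) < 1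
        rw [map_mul, h.on v hv]
        have h1 := h.val_le n s hv
        refine (mul_le_of_le_one_left' h1).trans_lt ?_
        rw [← exp_zero, exp_lt_exp]
        norm_num⟩
      invFun := fun s => ⟨(s.1.1 : K) * u⁻¹, by
        rw [mem_H0]
        intro v
        rw [map_mul, map_inv₀, ← div_eq_mul_inv, div_le_iff₀ (hpos v)]
        by_cases hv : v ∈ D
        · have h1 := (h.ev_eq_zero hK (n + 1) s.1).1 s.2 v hv
          rw [val_pw, h.frame v hv, one_pow, one_mul, h.on v hv, ← val_unif v, ← val_lt_one_iff]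
          exact h1
        · rw [h.off v hv, val_pw, ← pow_succ, ← val_pw]
          exact (mem_H0 _ _).1 s.1.2 v⟩
      left_inv := fun s => by
        apply Subtype.ext
        change (s : K) * u * u⁻¹ = s
        rw [mul_assoc, mul_inv_cancel₀ hu, mul_one]
      right_inv := fun s => by
        apply Subtype.ext
        apply Subtype.ext
        change (s.1.1 : K) * u⁻¹ * u = s.1.1
        rw [mul_assoc, inv_mul_cancel₀ hu, mul_one]
      map_add' := fun s t => by
        apply Subtype.ext
        apply Subtype.ext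
        change ((s : K) + t) * u = s * u + t * u
        ring
      map_smul' := fun c s => by
        apply Subtype.ext
        apply Subtype.ext
        change (c • (s : K)) * u = c • ((s : K) * u)
        rw [smul_mul_assoc] }
  exact e.finrank_eq.symm

/-- the value of the Hilbert function of the divisor -/
noncomputable def Nm.w (h : Nm L D u) (hK : IsCurve K) (n : ℕ) : ℕ :=
  Module.finrank ℂ (LinearMap.range (h.ev hK n))

theorem Nm.w_add (h : Nm L D u) (hK : IsCurve K) (hg : genus K ≠ 0) (hu : u ≠ 0) (n : ℕ) :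
    h.w hK (n + 1) + Module.finrank ℂ (H0 (pw L n)) = Module.finrank ℂ (H0 (pw L (n + 1))) := by
  have := H0_finite hK hg (pw L (n + 1))
  have h1 := LinearMap.finrank_range_add_finrank_ker (h.ev hK (n + 1))
  rw [h.finrank_ker hK hu] at h1
  exact h1

theorem Nm.w_le (h : Nm L D u) (hK : IsCurve K) (n : ℕ) : h.w hK n ≤ D.card := by
  have := Submodule.finrank_le (LinearMap.range (h.ev hK n))
  rw [Module.finrank_fintype_fun_eq_card, Fintype.card_coe] at this
  exact this

theorem Nm.pow_mono (h : Nm L D u) (n : ℕ) {f : K} (hf : f ∈ H0 (pw L n)) :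
    f ∈ H0 (pw L (n + 1)) := by
  rw [mem_H0] at hf ⊢
  intro v
  rw [val_pw, pow_succ, ← val_pw]
  exact (hf v).trans (le_mul_of_one_le_right' (h.one_le v))

theorem Nm.one_mem_pow (h : Nm L D u) (n : ℕ) : (1 : K) ∈ H0 (pw L n) := by
  rw [mem_H0]
  intro v
  rw [val_pw, map_one]
  exact one_le_pow_of_one_le' (h.one_le v) n

theorem Nm.range_mono (h : Nm L D u) (hK : IsCurve K) (n : ℕ) :
    LinearMap.range (h.ev hK n) ≤ LinearMap.range (h.ev hK (n + 1)) := by
  rintro _ ⟨f, rfl⟩
  exact ⟨⟨f.1, h.pow_mono n f.2⟩, rfl⟩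

theorem Nm.one_mem_range (h : Nm L D u) (hK : IsCurve K) (n : ℕ) :
    (1 : D → ℂ) ∈ LinearMap.range (h.ev hK n) := by
  refine ⟨⟨1, h.one_mem_pow n⟩, ?_⟩
  funext v
  rw [Nm.ev_apply, Pi.one_apply]
  exact map_one (resHom hK v.1)

theorem Nm.mul_mem_range (h : Nm L D u) (hK : IsCurve K) (n : ℕ) {x y : D → ℂ}
    (hx : x ∈ LinearMap.range (h.ev hK n)) (hy : y ∈ LinearMap.range (h.ev hK 1)) :
    x * y ∈ LinearMap.range (h.ev hK (n + 1)) := by
  obtain ⟨f, rfl⟩ := hx
  obtain ⟨g, rfl⟩ := hy
  refine ⟨⟨f.1 * g.1, ?_⟩, ?_⟩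
  · rw [mem_H0]
    intro v
    have h1 := (mem_H0 _ _).1 f.2 v
    have h2 := (mem_H0 _ _).1 g.2 v
    rw [val_pw] at h1 h2 ⊢
    rw [pow_one] at h2
    rw [map_mul, pow_succ]
    exact mul_le_mul' h1 h2
  · funext v
    rw [Pi.mul_apply, Nm.ev_apply, Nm.ev_apply, Nm.ev_apply, ← map_mul]
    rfl

theorem mem_pw_one (f : K) : f ∈ H0 (pw L 1) ↔ f ∈ H0 L := by
  rw [mem_H0, mem_H0]
  simp only [val_pw, pow_one]

/-- the sections of `L` separate the points of `D` -/
def Sep (L : LineBundle K) (D : Finset (Point K)) : Prop :=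
  ∀ v ∈ D, ∀ w ∈ D, v ≠ w → ∃ s ∈ H0 L, v.val s < 1 ∧ w.val s = 1

theorem Nm.genus_le (h : Nm L D u) (hK : IsCurve K) (hg : genus K ≠ 0) (hu : u ≠ 0)
    (hsep : Sep L D) (hd : L.degree = D.card) (hpos : 0 < D.card) {r : ℕ}
    (hr : r + 1 ≤ Module.finrank ℂ (H0 L)) :
    genus K ≤ (D.card - r + 1).choose 2 := by
  classical
  -- the defects
  set x : ℕ → ℕ := fun n => D.card - h.w hK (n + 1) with hx
  have hmono : ∀ n, h.w hK n ≤ h.w hK (n + 1) := fun n =>
    Submodule.finrank_mono (h.range_mono hK n)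
  have hstep : ∀ n, x n = 0 ∨ x (n + 1) + 1 ≤ x n := by
    intro n
    have h1 := grow (LinearMap.range (h.ev hK (n + 1))) (LinearMap.range (h.ev hK (n + 2)))
      (LinearMap.range (h.ev hK 1)) (h.one_mem_range hK _) (h.range_mono hK _)
      (fun x hx y hy => h.mul_mem_range hK _ hx hy) (fun i j hij => by
        obtain ⟨s, hs, hs1, hs2⟩ := hsep i.1 i.2 j.1 j.2 fun hh => hij (Subtype.ext hh)
        refine ⟨_, ⟨⟨s, (mem_pw_one s).2 hs⟩, rfl⟩, ?_, ?_⟩
        · rw [Nm.ev_apply, resHom_eq_zero_iff]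
          exact hs1
        · rw [Nm.ev_apply, Ne, resHom_eq_zero_iff]
          change ¬ j.1.val s < 1
          rw [hs2]
          exact lt_irrefl _)
    rcases h1 with h1 | h1
    · left
      have h2 : h.w hK (n + 1) = D.card := by
        rw [Nm.w, h1, finrank_top, Module.finrank_fintype_fun_eq_card, Fintype.card_coe]
      simp only [hx]
      omega
    · have h2 := h.w_le hK (n + 2)
      have h3 : h.w hK (n + 1) + 1 ≤ h.w hK (n + 2) := h1
      simp only [hx]
      right
      have e : n + 1 + 1 = n + 2 := rfl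
      rw [e]
      omega
  have hx0 : x 0 ≤ D.card - r := by
    have h1 := h.w_add hK hg hu 0
    have h2 : Module.finrank ℂ (H0 (pw L 0)) = 1 := (H0_one hK).2
    have h3 : H0 (pw L 1) = H0 L := by
      ext f
      exact mem_pw_one f
    rw [h2, zero_add, h3] at h1
    simp only [hx]
    rw [zero_add]
    omega
  have hsum := sum_defect x (fun n => by
    have := hmono (n + 1)
    simp only [hx]
    have e : n + 1 + 1 = n + 2 := rfl
    rw [e] at this ⊢
    omega) hstep
  -- the Hilbert function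
  have ha : ∀ N : ℕ, Module.finrank ℂ (H0 (pw L N)) + ∑ n ∈ range N, x n = 1 + N * D.card := by
    intro N
    induction N with
    | zero => 
      rw [sum_range_zero]
      have h2 : Module.finrank ℂ (H0 (pw L 0)) = 1 := (H0_one hK).2
      omega
    | succ N ih =>
      rw [sum_range_succ, ← h.w_add hK hg hu N]
      have h4 := h.w_le hK (N + 1)
      have h5 : x N = D.card - h.w hK (N + 1) := rfl
      have h6 : (N + 1) * D.card = N * D.card + D.card := by ring
      omega
  -- Riemann-Roch
  set N := 2 * genus K with hN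
  have hrr := (rrL hK hg (pw L N)).2
  have hneg : H0 (lmul (can hK hg) (linv (pw L N))) = ⊥ := by
    apply H0_eq_bot hK
    rw [lmul_degree, linv_degree, can_degree, pw_degree, hd]
    have h1 : (N : ℤ) * 1 ≤ N * (D.card : ℤ) :=
      mul_le_mul_of_nonneg_left (by exact_mod_cast hpos) (Nat.cast_nonneg _)
    have h2 : (N : ℤ) = 2 * genus K := by rw [hN]; push_cast; ring
    omega
  rw [hneg, finrank_bot, pw_degree, hd] at hrr
  have h7 := ha N
  have h8 := hsum N (D.card - r) hx0
  have h9 : (Module.finrank ℂ (H0 (pw L N)) : ℤ) + ((∑ n ∈ range N, x n : ℕ) : ℤ) =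
      1 + N * D.card := by exact_mod_cast h7
  have h10 : ((genus K : ℕ) : ℤ) = ((∑ n ∈ range N, x n : ℕ) : ℤ) := by
    push_cast at hrr ⊢
    push_cast at h9
    linarith
  have h11 : genus K = ∑ n ∈ range N, x n := by exact_mod_cast h10
  omega

end Pool.Agent.N147.BN
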