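import Pool.Agent.W518.EG.TGen
import Pool.Agent.Y803.FD.All
import Pool.Agent.N147.BN.Drop

/-!
# The genus `dim H¹(𝒪)` of a hyperelliptic curve, and its linear series
-/

open scoped WithZero Polynomial IntermediateField
open WithZero

set_option autoImplicit false
set_option linter.unusedSectionVars false

namespace Pool.Agent.N147.BN

open Pool.Agent.Helper395.CS hiding genus map_mul map_inv
open Pool.Agent.Helper395.BC
open Pool.Agent.W525.BA
open Pool.Agent.Y803.FD (Rev fs fs' revs Kf xf yf hyp_all Pf)
open Pool.Agent.W518.PC (lpow)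

variable {K : Type} [Field K] [Algebra ℂ K]

theorem val_lpow (L : LineBundle K) (n : ℕ) (v : Point K) :
    v.val ((lpow L n).frame v : K) = v.val (L.frame v : K) ^ n := by
  change v.val (((L.frame v) ^ (n : ℤ) : Kˣ) : K) = _
  rw [zpow_natCast, Units.val_pow_eq_pow_val, map_pow]

variable {x y : K} {f f' : ℂ[X]} {b : ℕ} {ι : K ≃ₐ[ℂ] K}

/-- the line bundle of the points at infinity, twisted -/
theorem mem_H0_lineH (hK : IsCurve K) (hx : x ≠ 0) (t : ℕ) (z : K) :
    z ∈ H0 (lpow (lineH hK hx 1) t) ↔
      ∀ v : Point K, v.val z ≤ 1 ∨ (1 < v.val x ∧ v.val z ≤ v.val x ^ t) := by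
  rw [mem_H0]
  refine forall_congr' fun v => ?_
  rw [val_lpow]
  change v.val z ≤ v.val (dgen x v 1) ^ t ↔ _
  by_cases h : v.val x ≤ 1
  · rw [dgen_fin h, map_one, one_pow]
    constructor
    · exact fun h1 => Or.inl h1
    · rintro (h1 | h1)
      · exact h1
      · exact absurd h (not_le.2 h1.1)
  · rw [dgen_inf (not_le.1 h), pow_one]
    constructor
    · exact fun h1 => Or.inr ⟨not_le.1 h, h1⟩
    · rintro (h1 | h1)
      · exact h1.trans (one_le_pow₀ (not_le.1 h).le)
      · exact h1.2

/-- the space of the functions `p(x) + q(x) y` with `deg p ≤ m` and `deg q < n` -/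
noncomputable def polyMap (x y : K) (m n : ℕ) :
    (Polynomial.degreeLT ℂ m × Polynomial.degreeLT ℂ n) →ₗ[ℂ] K where
  toFun p := Polynomial.aeval x p.1.1 + Polynomial.aeval x p.2.1 * y
  map_add' p q := by
    change Polynomial.aeval x (p.1.1 + q.1.1) + Polynomial.aeval x (p.2.1 + q.2.1) * y = _
    rw [map_add, map_add]
    ring
  map_smul' c p := by
    change Polynomial.aeval x (c • p.1.1) + Polynomial.aeval x (c • p.2.1) * y =
      c • (Polynomial.aeval x p.1.1 + Polynomial.aeval x p.2.1 * y)
    rw [map_smul, map_smul, smul_add, smul_mul_assoc]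

theorem finrank_degreeLT (n : ℕ) : Module.finrank ℂ (Polynomial.degreeLT ℂ n) = n := by
  rw [(Polynomial.degreeLTEquiv ℂ n).finrank_eq, Module.finrank_fintype_fun_eq_card,
    Fintype.card_fin]

theorem finite_degreeLT (n : ℕ) : FiniteDimensional ℂ (Polynomial.degreeLT ℂ n) :=
  (Polynomial.degreeLTEquiv ℂ n).symm.finiteDimensional

variable (H : Hyp x y f ι) (R : Rev f f' b)

include H

theorem polyMap_injective (m n : ℕ) : Function.Injective (polyMap x y m n) := by
  rw [← LinearMap.ker_eq_bot, LinearMap.ker_eq_bot']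
  rintro ⟨p, q⟩ h
  have h1 : Polynomial.aeval x p.1 + Polynomial.aeval x q.1 * y = 0 := h
  obtain ⟨h2, h3⟩ := H.coeff_zero (mem_adj _) (mem_adj _) h1
  have h4 : p.1 = 0 := by
    by_contra h4
    exact aeval_ne_zero H.trans h4 h2
  have h5 : q.1 = 0 := by
    by_contra h5
    exact aeval_ne_zero H.trans h5 h3
  exact Prod.ext (Subtype.ext h4) (Subtype.ext h5)

include R

theorem H0_lineH (t : ℕ) (ht : b + 8 ≤ t) : H0 (lpow (lineH H.curve H.x_ne 1) t) =
    LinearMap.range (polyMap x y (t + 1) (t - (b + 7))) := by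
  ext z
  rw [mem_H0_lineH]
  constructor
  · intro hz
    obtain ⟨p, q, rfl⟩ := H.mem_ring (z := z) (fun v hv => by
      rcases hz v with h | h
      · exact h
      · exact absurd hv (not_le.2 h.1))
    obtain ⟨v, hv⟩ := exists_inf H
    have hz' : ∀ v : Point K, 1 < v.val x →
        v.val (Polynomial.aeval x p + Polynomial.aeval x q * y) ≤ v.val x ^ t := by
      intro v hv
      rcases hz v with h | h
      · exact h.trans (one_le_pow₀ hv.le)
      · exact h.2
    have h1 := H.parts_le rfl (mem_adj p) (mem_adj q) v (C := v.val x ^ t) (hz' v hv) (by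
      have h2 : 1 < (v.comap ι).val x := by rw [H.comap_x]; exact hv
      have := hz' (v.comap ι) h2
      rwa [H.comap_x] at this)
    refine ⟨⟨⟨p, ?_⟩, ⟨q, ?_⟩⟩, rfl⟩
    · rw [Polynomial.mem_degreeLT]
      rcases eq_or_ne p 0 with rfl | hp
      · rw [Polynomial.degree_zero]
        exact WithBot.bot_lt_coe _
      · rw [Polynomial.degree_eq_natDegree hp]
        have h4 := h1.1
        rw [val_aeval_inf hv p hp, pow_le_pow_iff_right₀ hv] at h4
        exact_mod_cast Nat.lt_succ_of_le h4
    · rw [Polynomial.mem_degreeLT]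
      rcases eq_or_ne q 0 with rfl | hq
      · rw [Polynomial.degree_zero]
        exact WithBot.bot_lt_coe _
      · rw [Polynomial.degree_eq_natDegree hq]
        have h4 := h1.2
        rw [map_mul, val_aeval_inf hv q hq, Pool.Agent.Y803.FD.val_y_inf H R hv, ← pow_add,
          pow_le_pow_iff_right₀ hv] at h4
        exact_mod_cast (show q.natDegree < t - (b + 7) by omega)
  · rintro ⟨⟨⟨p, hp⟩, ⟨q, hq⟩⟩, rfl⟩ v
    change v.val (Polynomial.aeval x p + Polynomial.aeval x q * y) ≤ 1 ∨
      1 < v.val x ∧ v.val (Polynomial.aeval x p + Polynomial.aeval x q * y) ≤ _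
    rw [Polynomial.mem_degreeLT] at hp hq
    by_cases hv : v.val x ≤ 1
    · left
      have hy : v.val y ≤ 1 := by
        have h1 : v.val y ^ 2 ≤ 1 := by
          rw [← map_pow, H.eq]
          exact aeval_le hv f
        by_contra h2
        exact absurd h1 (not_le.2 (one_lt_pow₀ (not_le.1 h2) two_ne_zero))
      refine Valuation.map_add_le _ (aeval_le hv p) ?_
      rw [map_mul]
      exact mul_le_one' (aeval_le hv q) hy
    · have hv' := not_le.1 hv
      refine Or.inr ⟨hv', Valuation.map_add_le _ ?_ ?_⟩
      · rcases eq_or_ne p 0 with rfl | hp0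
        · rw [map_zero, map_zero]
          exact zero_le
        · rw [val_aeval_inf hv' p hp0, pow_le_pow_iff_right₀ hv']
          rw [Polynomial.degree_eq_natDegree hp0] at hp
          have : p.natDegree < t + 1 := by exact_mod_cast hp
          omega
      · rcases eq_or_ne q 0 with rfl | hq0
        · rw [map_zero, zero_mul, map_zero]
          exact zero_le
        · rw [map_mul, val_aeval_inf hv' q hq0, Pool.Agent.Y803.FD.val_y_inf H R hv', ← pow_add,
            pow_le_pow_iff_right₀ hv']
          rw [Polynomial.degree_eq_natDegree hq0] at hq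
          have : q.natDegree < t - (b + 7) := by exact_mod_cast hq
          omega

/-- the genus of a hyperelliptic curve -/
theorem hyp_genus : genus K = b + 7 := by
  refine Pool.Agent.W518.EG.s_GEN K H.curve 2 (b + 7) (b + 8) (lineH H.curve H.x_ne 1) (by norm_num)
    (by omega) ?_ ?_
  · rw [Pool.Agent.Y803.FD.degree_lineH H R]
    norm_num
  · intro t ht
    have h1 := H0_lineH H R t ht
    have f1 := finite_degreeLT (t + 1)
    have f2 := finite_degreeLT (t - (b + 7))
    rw [h1]
    refine ⟨inferInstance, ?_⟩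
    rw [LinearMap.finrank_range_of_inj (polyMap_injective H _ _), Module.finrank_prod,
      finrank_degreeLT, finrank_degreeLT]
    push_cast
    omega

end Pool.Agent.N147.BN
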