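import Pool.Agent.W525.Cliff
import Pool.Agent.Helper395.CS.Diff

/-!
# A nonconstant function is unramified at almost all points
-/

open scoped WithZero Polynomial IntermediateField
open WithZero

set_option autoImplicit false
set_option linter.unusedSectionVars false
set_option linter.style.haveILetI false

namespace Pool.Agent.N147.BN

open Pool.Agent.Helper395.CS hiding genus
open Pool.Agent.Helper395.BC
open Pool.Agent.W525.BA

variable {K : Type} [Field K] [Algebra ℂ K]

/-- a `ℂ`-linear derivation of `K` with `δ t = 1` -/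
theorem exists_derivation (hK : IsCurve K) {t : K} (ht : Transcendental ℂ t) :
    ∃ δ : Derivation ℂ K K, δ t = 1 := by
  have h0 := D_ne_zero hK ht
  obtain ⟨φ, hφ⟩ : ∃ φ : (Ω[K⁄ℂ]) →ₗ[K] K, φ (KaehlerDifferential.D ℂ K t) = 1 := by
    obtain ⟨f, hf⟩ := Module.Projective.exists_dual_eq_one K h0
    exact ⟨f, hf⟩
  refine ⟨φ.compDer (KaehlerDifferential.D ℂ K), ?_⟩
  simpa using hφ

/-- `δ` preserves the local rings of almost all points -/
theorem finite_not_stable (hK : IsCurve K) {t : K} (ht : Transcendental ℂ t)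
    (δ : Derivation ℂ K K) : ∃ S : Set (Point K), S.Finite ∧
      ∀ v : Point K, v ∉ S → v.val t ≤ 1 → ∀ z : K, v.val z ≤ 1 → v.val (δ z) ≤ 1 := by
  refine setup hK ht _ ?_
  intro i1 i2 hX hae i3 i4 i5 i6 i7 i8 i9
  obtain ⟨B, hB⟩ := i8
  classical
  refine ⟨(⋃ b ∈ (B : Set (BB K)), {v : Point K | ¬ v.val (δ (b : K)) ≤ 1}) ∪
    {v : Point K | ¬ v.val (δ t) ≤ 1}, ?_, ?_⟩
  · refine Set.Finite.union (B.finite_toSet.biUnion fun b _ => finite_not_reg hK _)
      (finite_not_reg hK _)
  · intro v hv hvt
    simp only [Set.mem_union, Set.mem_iUnion, not_or, not_exists] at hv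
    obtain ⟨hv1, hv2⟩ := hv
    have hv1' : ∀ b ∈ B, v.val (δ (b : K)) ≤ 1 := by
      intro b hb
      have := hv1 b hb
      simpa using this
    have hv2' : v.val (δ t) ≤ 1 := by simpa using hv2
    -- polynomials in `t`
    have hpoly : ∀ p : ℂ[X], v.val (δ (algebraMap ℂ[X] K p)) ≤ 1 := by
      intro p
      rw [hae, Derivation.map_aeval, smul_eq_mul, map_mul]
      refine mul_le_one' ?_ hv2'
      rw [← hae]
      exact poly_mem v (by rw [hX]; exact hvt) _
    -- integral elements
    have hint : ∀ b : BB K, v.val (δ (b : K)) ≤ 1 := by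
      intro b
      have hb : b ∈ Submodule.span ℂ[X] (B : Set (BB K)) := by rw [hB]; trivial
      induction hb using Submodule.span_induction with
      | mem x hx => exact hv1' x hx
      | zero => simp
      | add x y _ _ hx hy =>
        have : ((x + y : BB K) : K) = (x : K) + y := rfl
        rw [this, map_add]
        exact Valuation.map_add_le _ hx hy
      | smul p x _ hx =>
        have : ((p • x : BB K) : K) = algebraMap ℂ[X] K p * (x : K) := by
          rw [← Algebra.smul_def]; rfl
        rw [this, Derivation.leibniz, smul_eq_mul, smul_eq_mul]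
        refine Valuation.map_add_le _ ?_ ?_
        · rw [map_mul]
          exact mul_le_one' (poly_mem v (by rw [hX]; exact hvt) _) hx
        · rw [map_mul]
          exact mul_le_one' (int_mem v (by rw [hX]; exact hvt) x) (hpoly p)
    intro z hz
    have hvt' : v.val (algebraMap ℂ[X] K Polynomial.X) ≤ 1 := by rw [hX]; exact hvt
    obtain ⟨n, d, hnd⟩ := IsDedekindDomain.HeightOneSpectrum.exists_primeCompl_mul_eq_of_integer
      (under v hvt') z (by rw [under_valuation]; exact hz)
    have hd1 : v.val ((d : BB K) : K) = 1 := le_antisymm (int_mem v hvt' d) (not_lt.1 d.2)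
    have hd0 : ((d : BB K) : K) ≠ 0 := by
      intro h
      rw [h, map_zero] at hd1
      exact zero_ne_one hd1
    have hnd' : z * ((d : BB K) : K) = ((n : BB K) : K) := hnd
    have h1 : δ ((n : BB K) : K) = z * δ ((d : BB K) : K) + ((d : BB K) : K) * δ z := by
      rw [← hnd', Derivation.leibniz, smul_eq_mul, smul_eq_mul]
    have h2 : ((d : BB K) : K) * δ z = δ ((n : BB K) : K) - z * δ ((d : BB K) : K) := by
      rw [h1]; ring
    have h3 : v.val (((d : BB K) : K) * δ z) ≤ 1 := by
      rw [h2]
      refine Valuation.map_sub_le _ (hint n) ?_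
      rw [map_mul]
      exact mul_le_one' hz (hint _)
    rwa [map_mul, hd1, one_mul] at h3

/-- a nonconstant function is unramified at almost all points -/
theorem finite_ramified (hK : IsCurve K) {t : K} (ht : Transcendental ℂ t) :
    {v : Point K | v.val t ≤ 1 ∧ ∃ c : ℂ, v.val (t - algebraMap ℂ K c) ≤ exp (-2)}.Finite := by
  obtain ⟨δ, hδ⟩ := exists_derivation hK ht
  obtain ⟨S, hS, hS'⟩ := finite_not_stable hK ht δ
  refine hS.subset fun v hv => ?_
  obtain ⟨hvt, c, hc⟩ := hv
  by_contra hvS
  have hst := hS' v hvS hvt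
  set π := unif v with hπ
  have hπ0 : π ≠ 0 := unif_ne_zero v
  have hπv : v.val π = exp (-1) := val_unif v
  set u := (t - algebraMap ℂ K c) / (π * π) with hu
  have hu1 : v.val u ≤ 1 := by
    rw [hu, map_div₀, map_mul, hπv]
    have h1 : (exp (-1) * exp (-1) : ℤᵐ⁰) = exp (-2) := by rw [← exp_add]; norm_num
    rw [h1]
    exact (div_le_one₀ (by exact zero_lt_iff.2 exp_ne_zero)).2 hc
  have h1 : t - algebraMap ℂ K c = u * (π * π) := by
    rw [hu]; field_simp
  have h2 : δ (t - algebraMap ℂ K c) = 1 := by
    rw [map_sub, hδ, Derivation.map_algebraMap, sub_zero]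
  rw [h1, Derivation.leibniz, Derivation.leibniz] at h2
  simp only [smul_eq_mul] at h2
  have h3 : (1 : K) = π * (u * (δ π + δ π) + π * δ u) := by
    rw [← h2]; ring
  have h4 : v.val (1 : K) < 1 := by
    rw [h3, map_mul]
    have h5 : v.val (u * (δ π + δ π) + π * δ u) ≤ 1 := by
      have h6 : v.val π ≤ 1 := (val_unif_lt v).le
      refine Valuation.map_add_le _ ?_ ?_
      · rw [map_mul]
        exact mul_le_one' hu1 (Valuation.map_add_le _ (hst _ h6) (hst _ h6))
      · rw [map_mul]
        exact mul_le_one' h6 (hst _ hu1)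
    exact mul_lt_one_of_nonneg_of_lt_one_left zero_le (val_unif_lt v) h5
  rw [map_one] at h4
  exact lt_irrefl _ h4

end Pool.Agent.N147.BN
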